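import Pool.Agent.Helper50.MB.Goals

/-!
# Project MB (MP_fda85d_co), packet SUP: superadditivity
-/

set_option autoImplicit false

namespace Pool.Agent.Helper88.MB

open Pool.Agent.Helper50.MB

/-- `z` is strictly between `s` and `t` -/
def Bt (s t z : ℤ) : Prop := (s < z ∧ z < t) ∨ (t < z ∧ z < s)

/-- non-crossing, symmetric form -/
def NCu (a : ℤ → ℤ) : Prop := ∀ s z, z ≠ s → z ≠ a s → (Bt s (a s) z ↔ Bt s (a s) (a z))

theorem ncu_of_nci {l h : ℤ} {a : ℤ → ℤ} (H : NCI l h a) : NCu a := by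
  intro s z h1 h2
  have i1 := H.inv s
  have i2 := H.inv z
  have e1 : a z ≠ a s := fun h => h1 (by rw [← i2, h, i1])
  have e2 : a z ≠ s := fun h => h2 (by rw [← i2, h])
  have n1 := H.nc s z
  have n2 := H.nc (a s) z
  have n3 := H.nc s (a z)
  have n4 := H.nc (a s) (a z)
  have n5 := H.nc z s
  have n6 := H.nc z (a s)
  have n7 := H.nc (a z) s
  have n8 := H.nc (a z) (a s)
  rw [i1] at n2 n4 n6 n8
  rw [i2] at n3 n4 n7 n8
  unfold Bt
  generalize a s = t at *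
  generalize a z = z' at *
  omega

theorem nc_of_ncu {a : ℤ → ℤ} (H : NCu a) : ∀ x y, x < y → y < a x → a y < a x := by
  intro x y h1 h2
  have h3 := H x y (by omega) (by omega)
  have h4 : Bt x (a x) y := Or.inl ⟨h1, h2⟩
  have h5 := h3.1 h4
  unfold Bt at h5
  omega

theorem bt_swap {x y z z' : ℤ} (h1 : z ≠ x) (h2 : z ≠ y) (h3 : z' ≠ x) (h4 : z' ≠ y)
    (h : Bt z z' x ↔ Bt z z' y) : Bt x y z ↔ Bt x y z' := by
  unfold Bt at *
  omega

theorem bt_adj {x y p : ℤ} (h1 : x ≠ p) (h2 : x ≠ p + 1) (h3 : y ≠ p) (h4 : y ≠ p + 1) :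
    Bt x y p ↔ Bt x y (p + 1) := by
  unfold Bt
  omega

theorem bt_comm (x y z : ℤ) : Bt x y z ↔ Bt y x z := by
  unfold Bt
  omega

theorem maps {l h : ℤ} {a : ℤ → ℤ} (H : NCI l h a) {z : ℤ} (h1 : l ≤ z) (h2 : z < h) :
    l ≤ a z ∧ a z < h := by
  by_contra hc
  have h3 : a z < l ∨ h ≤ a z := by omega
  have h4 := H.out (a z) h3
  rw [H.inv] at h4
  exact H.ne z h1 h2 h4.symm

/-! ### The saddle move -/

/-- the arcs `{p, x}`, `{p + 1, y}` are replaced by `{p, p + 1}`, `{x, y}` -/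
def sw (p : ℤ) (b : ℤ → ℤ) (z : ℤ) : ℤ :=
  if z = p then p + 1 else if z = p + 1 then p
  else if z = b p then b (p + 1) else if z = b (p + 1) then b p else b z

section swap

variable {p : ℤ} {b : ℤ → ℤ}

theorem sw_p : sw p b p = p + 1 := if_pos rfl

theorem sw_q : sw p b (p + 1) = p := by
  unfold sw
  rw [if_neg (by omega), if_pos rfl]

theorem sw_x (h1 : b p ≠ p) (h2 : b p ≠ p + 1) : sw p b (b p) = b (p + 1) := by
  unfold sw
  rw [if_neg h1, if_neg h2, if_pos rfl]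

theorem sw_y (h3 : b (p + 1) ≠ p) (h4 : b (p + 1) ≠ p + 1) (h5 : b (p + 1) ≠ b p) :
    sw p b (b (p + 1)) = b p := by
  unfold sw
  rw [if_neg h3, if_neg h4, if_neg h5, if_pos rfl]

theorem sw_o {z : ℤ} (h1 : z ≠ p) (h2 : z ≠ p + 1) (h3 : z ≠ b p) (h4 : z ≠ b (p + 1)) :
    sw p b z = b z := by
  unfold sw
  rw [if_neg h1, if_neg h2, if_neg h3, if_neg h4]

theorem sw_nci {l h : ℤ} (H : NCI l h b) (hp : l ≤ p) (hq : p + 1 < h) (hne : b p ≠ p + 1) :
    NCI l h (sw p b) := by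
  have H1 : b p ≠ p := H.ne p hp (by omega)
  have H4 : b (p + 1) ≠ p + 1 := H.ne (p + 1) (by omega) hq
  have H3 : b (p + 1) ≠ p := fun e => by
    have := congrArg b e
    rw [H.inv] at this
    exact hne this.symm
  have H5 : b (p + 1) ≠ b p := fun e => by
    have := congrArg b e
    rw [H.inv, H.inv] at this
    omega
  have m1 := maps H hp (by omega)
  have m2 := maps H (show l ≤ p + 1 by omega) hq
  have ip := H.inv p
  have iq := H.inv (p + 1)
  -- all cases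
  have cs : ∀ z, z = p ∨ z = p + 1 ∨ z = b p ∨ z = b (p + 1) ∨
      (z ≠ p ∧ z ≠ p + 1 ∧ z ≠ b p ∧ z ≠ b (p + 1)) := by
    intro z
    by_cases e1 : z = p
    · exact Or.inl e1
    by_cases e2 : z = p + 1
    · exact Or.inr (Or.inl e2)
    by_cases e3 : z = b p
    · exact Or.inr (Or.inr (Or.inl e3))
    by_cases e4 : z = b (p + 1)
    · exact Or.inr (Or.inr (Or.inr (Or.inl e4)))
    exact Or.inr (Or.inr (Or.inr (Or.inr ⟨e1, e2, e3, e4⟩)))
  have oth : ∀ z, (z ≠ p ∧ z ≠ p + 1 ∧ z ≠ b p ∧ z ≠ b (p + 1)) →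
      (b z ≠ p ∧ b z ≠ p + 1 ∧ b z ≠ b p ∧ b z ≠ b (p + 1)) := by
    rintro z ⟨e1, e2, e3, e4⟩
    refine ⟨fun h => e3 ?_, fun h => e4 ?_, fun h => e1 ?_, fun h => e2 ?_⟩
    · rw [← h, H.inv]
    · rw [← h, H.inv]
    · have := congrArg b h
      rwa [H.inv, H.inv] at this
    · have := congrArg b h
      rwa [H.inv, H.inv] at this
  have hb := ncu_of_nci H
  -- other arcs do not separate `x` from `y`
  have nosep : ∀ z, (z ≠ p ∧ z ≠ p + 1 ∧ z ≠ b p ∧ z ≠ b (p + 1)) →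
      (Bt z (b z) (b p) ↔ Bt z (b z) (b (p + 1))) := by
    intro z hz
    obtain ⟨f1, f2, f3, f4⟩ := oth z hz
    obtain ⟨e1, e2, e3, e4⟩ := hz
    have k1 := hb z p e1.symm (fun h => f1 h.symm)
    have k2 := hb z (p + 1) e2.symm (fun h => f2 h.symm)
    have k3 := bt_adj e1 e2 f1 f2
    exact k1.symm.trans (k3.trans k2)
  refine ⟨?_, ?_, ?_, ?_⟩
  · intro z
    rcases cs z with rfl | rfl | rfl | rfl | hz
    · rw [sw_p, sw_q]
    · rw [sw_q, sw_p]
    · rw [sw_x H1 hne, sw_y H3 H4 H5]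
    · rw [sw_y H3 H4 H5, sw_x H1 hne]
    · obtain ⟨f1, f2, f3, f4⟩ := oth z hz
      obtain ⟨e1, e2, e3, e4⟩ := hz
      rw [sw_o e1 e2 e3 e4, sw_o f1 f2 f3 f4, H.inv]
  · intro z hz
    rw [sw_o (by omega) (by omega) (by omega) (by omega), H.out z hz]
  · intro z h1 h2
    rcases cs z with rfl | rfl | rfl | rfl | hz
    · rw [sw_p]; omega
    · rw [sw_q]; omega
    · rw [sw_x H1 hne]; exact H5
    · rw [sw_y H3 H4 H5]; exact H5.symm
    · obtain ⟨e1, e2, e3, e4⟩ := hz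
      rw [sw_o e1 e2 e3 e4]
      exact H.ne z h1 h2
  · apply nc_of_ncu
    -- the arc `{x, y}`
    have xy : ∀ z, z ≠ b p → z ≠ b (p + 1) → (Bt (b p) (b (p + 1)) z ↔
        Bt (b p) (b (p + 1)) (sw p b z)) := by
      intro z h1 h2
      rcases cs z with rfl | rfl | rfl | rfl | hz
      · rw [sw_p]; exact bt_adj H1 hne H3 H4
      · rw [sw_q]; exact (bt_adj H1 hne H3 H4).symm
      · exact absurd rfl h1
      · exact absurd rfl h2
      · have ns := nosep z hz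
        obtain ⟨f1, f2, f3, f4⟩ := oth z hz
        obtain ⟨e1, e2, e3, e4⟩ := hz
        rw [sw_o e1 e2 e3 e4]
        exact bt_swap e3 e4 f3 f4 ns
    intro s z h1 h2
    rcases cs s with rfl | rfl | rfl | rfl | hs
    · rw [sw_p]
      unfold Bt
      omega
    · rw [sw_q]
      unfold Bt
      omega
    · rw [sw_x H1 hne] at h2 ⊢
      exact xy z h1 h2
    · rw [sw_y H3 H4 H5] at h2 ⊢
      rw [bt_comm, xy z h2 h1, bt_comm]
    · have ns := nosep s hs
      obtain ⟨f1, f2, f3, f4⟩ := oth s hs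
      obtain ⟨e1, e2, e3, e4⟩ := hs
      rw [sw_o e1 e2 e3 e4] at h2 ⊢
      rcases cs z with rfl | rfl | rfl | rfl | hz
      · rw [sw_p]; exact bt_adj e1 e2 f1 f2
      · rw [sw_q]; exact (bt_adj e1 e2 f1 f2).symm
      · rw [sw_x H1 hne]; exact ns
      · rw [sw_y H3 H4 H5]; exact ns.symm
      · obtain ⟨g1, g2, g3, g4⟩ := hz
        rw [sw_o g1 g2 g3 g4]
        exact hb s z h1 h2

end swap

/-! ### Placing one semi-meander around the other -/

/-- `o` -/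
def oo (m : ℕ) (w : ℤ) : ℤ := if 0 ≤ w then w + m else w - m

/-- the inverse of `o` -/
def oi (m : ℕ) (z : ℤ) : ℤ := if (m : ℤ) ≤ z then z - m else z + m

/-- inner points -/
def Inn (m : ℕ) (z : ℤ) : Prop := -(m : ℤ) ≤ z ∧ z < m

instance (m : ℕ) (z : ℤ) : Decidable (Inn m z) := by unfold Inn; infer_instance

theorem oi_oo (m : ℕ) (w : ℤ) : oi m (oo m w) = w := by
  unfold oi oo
  split_ifs <;> omega

theorem oo_not (m : ℕ) (w : ℤ) : ¬ Inn m (oo m w) := by
  unfold Inn oo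
  split_ifs <;> omega

theorem oo_oi {m : ℕ} {z : ℤ} (h : ¬ Inn m z) : oo m (oi m z) = z := by
  unfold Inn at h
  unfold oi oo
  split_ifs <;> omega

theorem oo_lt (m : ℕ) (w w' : ℤ) : oo m w < oo m w' ↔ w < w' := by
  unfold oo
  split_ifs <;> omega

theorem oo_inj (m : ℕ) {w w' : ℤ} (h : oo m w = oo m w') : w = w' := by
  rw [← oi_oo m w, h, oi_oo]

theorem oo_neg (m : ℕ) (w : ℤ) : oo m (-1 - w) = -1 - oo m w := by
  unfold oo
  split_ifs <;> omega

theorem inn_or (m : ℕ) (z : ℤ) : Inn m z ∨ ∃ w, z = oo m w := by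
  by_cases h : Inn m z
  · exact Or.inl h
  · exact Or.inr ⟨oi m z, (oo_oi h).symm⟩

/-- the union of the two matchings -/
def a0 (m : ℕ) (a1 a2 : ℤ → ℤ) (z : ℤ) : ℤ := if Inn m z then a1 z else oo m (a2 (oi m z))

theorem a0_inn {m : ℕ} {a1 a2 : ℤ → ℤ} {z : ℤ} (h : Inn m z) : a0 m a1 a2 z = a1 z := if_pos h

theorem a0_oo (m : ℕ) (a1 a2 : ℤ → ℤ) (w : ℤ) : a0 m a1 a2 (oo m w) = oo m (a2 w) := by
  unfold a0
  rw [if_neg (oo_not m w), oi_oo]

theorem a0_nci {m n : ℕ} {a1 a2 : ℤ → ℤ} (h1 : NCI (-(m : ℤ)) m a1) (h2 : NCI (-(n : ℤ)) n a2) :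
    NCI (-((m + n : ℕ) : ℤ)) ((m + n : ℕ) : ℤ) (a0 m a1 a2) := by
  have k1 : ∀ z, Inn m z → Inn m (a1 z) := fun z hz => maps h1 hz.1 hz.2
  have n1 := ncu_of_nci h1
  have n2 := ncu_of_nci h2
  refine ⟨?_, ?_, ?_, ?_⟩
  · intro z
    rcases inn_or m z with hz | ⟨w, rfl⟩
    · rw [a0_inn hz, a0_inn (k1 z hz), h1.inv]
    · rw [a0_oo, a0_oo, h2.inv]
  · intro z hz
    rcases inn_or m z with hi | ⟨w, rfl⟩
    · unfold Inn at hi
      push_cast at hz
      omega
    · rw [a0_oo, h2.out]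
      unfold oo at hz
      push_cast at hz
      split_ifs at hz <;> omega
  · intro z hz1 hz2
    rcases inn_or m z with hi | ⟨w, rfl⟩
    · rw [a0_inn hi]
      exact h1.ne z hi.1 hi.2
    · rw [a0_oo]
      intro h
      refine h2.ne w ?_ ?_ (oo_inj m h)
      · unfold oo at hz1
        push_cast at hz1
        split_ifs at hz1 <;> omega
      · unfold oo at hz2
        push_cast at hz2
        split_ifs at hz2 <;> omega
  · apply nc_of_ncu
    intro s z e1 e2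
    rcases inn_or m s with hs | ⟨w, rfl⟩
    · rw [a0_inn hs] at e2 ⊢
      have q1 := k1 s hs
      rcases inn_or m z with hz | ⟨v, rfl⟩
      · rw [a0_inn hz]
        exact n1 s z e1 e2
      · rw [a0_oo]
        have q2 := oo_not m v
        have q3 := oo_not m (a2 v)
        unfold Inn at hs q1 q2 q3
        unfold Bt
        omega
    · rw [a0_oo] at e2 ⊢
      rcases inn_or m z with hz | ⟨v, rfl⟩
      · rw [a0_inn hz]
        have q1 := k1 z hz
        unfold Inn at hz q1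
        unfold Bt oo
        split_ifs <;> omega
      · rw [a0_oo]
        have q := n2 w v (fun h => e1 (by rw [h])) (fun h => e2 (by rw [h]))
        unfold Bt at q ⊢
        simp only [oo_lt]
        exact q

/-- the joined semi-meander -/
def jn (m : ℕ) (a1 a2 : ℤ → ℤ) : ℤ → ℤ := sw ((m : ℤ) - 1) (a0 m a1 a2)

/-- parity: the rest of a cycle from which one arc is removed is connected -/
theorem reach {N : ℕ} {α : ℤ → ℤ} (hα : NCI (-(N : ℤ)) N α)
    (hc : CI (-(N : ℤ)) N α (fun z => -1 - z)) (c : ℤ) (hc1 : -(N : ℤ) ≤ c) (hc2 : c < N)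
    (Q : ℤ → Prop) (h0 : Q c) (hr : ∀ z, -(N : ℤ) ≤ z → z < N → Q z → Q (-1 - z))
    (ha : ∀ z, -(N : ℤ) ≤ z → z < N → z ≠ c → z ≠ α c → Q z → Q (α z)) :
    ∀ z, -(N : ℤ) ≤ z → z < N → Q z := by
  classical
  have hx : Q (α c) := by
    by_contra hx
    have s1 : ∑ z ∈ (Finset.Ico (-(N : ℤ)) N).filter Q, (1 : ZMod 2) = 0 := by
      refine Finset.sum_involution (fun z _ => -1 - z) ?_ ?_ ?_ ?_
      · intro z _
        decide
      · intro z _ _
        omega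
      · intro z hz
        rw [Finset.mem_filter, Finset.mem_Ico] at hz ⊢
        exact ⟨⟨by omega, by omega⟩, hr z hz.1.1 hz.1.2 hz.2⟩
      · intro z _
        ring
    have s2 : ∑ z ∈ ((Finset.Ico (-(N : ℤ)) N).filter Q).erase c, (1 : ZMod 2) = 0 := by
      have key : ∀ z ∈ ((Finset.Ico (-(N : ℤ)) N).filter Q).erase c,
          -(N : ℤ) ≤ z ∧ z < N ∧ z ≠ c ∧ z ≠ α c ∧ Q z := by
        intro z hz
        rw [Finset.mem_erase, Finset.mem_filter, Finset.mem_Ico] at hz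
        exact ⟨hz.2.1.1, hz.2.1.2, hz.1, fun h => hx (h ▸ hz.2.2), hz.2.2⟩
      refine Finset.sum_involution (fun z _ => α z) ?_ ?_ ?_ ?_
      · intro z _
        decide
      · intro z hz _
        obtain ⟨q1, q2, -, -, -⟩ := key z hz
        exact hα.ne z q1 q2
      · intro z hz
        obtain ⟨q1, q2, q3, q4, q5⟩ := key z hz
        have q6 := maps hα q1 q2
        rw [Finset.mem_erase, Finset.mem_filter, Finset.mem_Ico]
        refine ⟨fun h => q4 ?_, ⟨q6.1, q6.2⟩, ha z q1 q2 q3 q4 q5⟩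
        rw [← h, hα.inv]
      · intro z _
        exact hα.inv z
    have hmem : c ∈ (Finset.Ico (-(N : ℤ)) N).filter Q := by
      rw [Finset.mem_filter, Finset.mem_Ico]
      exact ⟨⟨hc1, hc2⟩, h0⟩
    have s3 := Finset.add_sum_erase _ (fun _ : ℤ => (1 : ZMod 2)) hmem
    rw [s1, s2] at s3
    exact absurd s3 (by decide)
  intro z hz1 hz2
  have hcz := hc c z hc1 hc2 hz1 hz2
  have : -(N : ℤ) ≤ z ∧ z < N ∧ Q z := by
    induction hcz with
    | refl => exact ⟨hc1, hc2, h0⟩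
    | @tail s t hst hstep ih =>
      have hs : -(N : ℤ) ≤ s ∧ s < N ∧ Q s := by
        apply ih
        · rcases hstep with rfl | rfl
          · by_contra h
            have := hα.out s (by omega)
            omega
          · simp only at hz2
            omega
        · rcases hstep with rfl | rfl
          · by_contra h
            have := hα.out s (by omega)
            omega
          · simp only at hz1
            omega
      refine ⟨hz1, hz2, ?_⟩
      obtain ⟨hs1, hs2, hs3⟩ := hs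
      rcases hstep with rfl | rfl
      · by_cases e1 : s = c
        · rw [e1]; exact hx
        by_cases e2 : s = α c
        · rw [e2, hα.inv]; exact h0
        exact ha s hs1 hs2 e1 e2 hs3
      · exact hr s hs1 hs2 hs3
  exact this.2.2

section main

variable {m n : ℕ} {a1 a2 : ℤ → ℤ}

theorem m_eq (hm : 0 < m) : (m : ℤ) = oo m 0 ∧ Inn m ((m : ℤ) - 1) := by
  constructor
  · unfold oo
    rw [if_pos le_rfl]
    omega
  · unfold Inn
    omega

theorem jn_vals (hm : 0 < m) (hn : 0 < n) (h1 : NCI (-(m : ℤ)) m a1)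
    (h2 : NCI (-(n : ℤ)) n a2) :
    jn m a1 a2 (m - 1) = m ∧ jn m a1 a2 m = m - 1 ∧
    jn m a1 a2 (a1 (m - 1)) = oo m (a2 0) ∧ jn m a1 a2 (oo m (a2 0)) = a1 (m - 1) ∧
    (∀ z, Inn m z → z ≠ m - 1 → z ≠ a1 (m - 1) → jn m a1 a2 z = a1 z) ∧
    (∀ w, w ≠ 0 → w ≠ a2 0 → jn m a1 a2 (oo m w) = oo m (a2 w)) ∧
    NCI (-((m + n : ℕ) : ℤ)) ((m + n : ℕ) : ℤ) (jn m a1 a2) := by
  obtain ⟨e1, e2⟩ := m_eq hm
  have ep : (m : ℤ) - 1 + 1 = m := by ring
  have b1 : a0 m a1 a2 (m - 1) = a1 (m - 1) := a0_inn e2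
  have b2 : a0 m a1 a2 ((m : ℤ) - 1 + 1) = oo m (a2 0) := by
    rw [ep]
    have := a0_oo m a1 a2 0
    rwa [← e1] at this
  have H := a0_nci h1 h2
  have x1 : Inn m (a1 (m - 1)) := maps h1 e2.1 e2.2
  have x2 : a1 ((m : ℤ) - 1) ≠ m - 1 := h1.ne _ e2.1 e2.2
  have y1 := oo_not m (a2 0)
  have y2 : a2 0 ≠ 0 := h2.ne 0 (by omega) (by omega)
  have y3 : oo m (a2 0) ≠ m := by
    intro h
    rw [e1] at h
    nth_rewrite 1 [← e1] at h
    exact y2 (oo_inj m (by rw [h, ← e1]))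
  have hne : a0 m a1 a2 (m - 1) ≠ (m : ℤ) - 1 + 1 := by
    rw [b1, ep]
    intro h
    unfold Inn at x1
    omega
  have H1 : a0 m a1 a2 (m - 1) ≠ (m : ℤ) - 1 := by rw [b1]; exact x2
  have H3 : a0 m a1 a2 ((m : ℤ) - 1 + 1) ≠ (m : ℤ) - 1 := by
    rw [b2]
    intro h
    rw [h] at y1
    exact y1 e2
  have H4 : a0 m a1 a2 ((m : ℤ) - 1 + 1) ≠ (m : ℤ) - 1 + 1 := by
    rw [b2, ep]
    exact y3
  have H5 : a0 m a1 a2 ((m : ℤ) - 1 + 1) ≠ a0 m a1 a2 ((m : ℤ) - 1) := by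
    rw [b1, b2]
    intro h
    rw [h] at y1
    exact y1 x1
  refine ⟨?_, ?_, ?_, ?_, ?_, ?_, ?_⟩
  · show sw ((m : ℤ) - 1) (a0 m a1 a2) (m - 1) = m
    rw [sw_p, ep]
  · show sw ((m : ℤ) - 1) (a0 m a1 a2) m = m - 1
    have := sw_q (p := (m : ℤ) - 1) (b := a0 m a1 a2)
    rwa [ep] at this
  · have := sw_x (p := (m : ℤ) - 1) (b := a0 m a1 a2) H1 hne
    rwa [b1, b2] at this
  · have := sw_y (p := (m : ℤ) - 1) (b := a0 m a1 a2) H3 H4 H5
    rwa [b1, b2] at this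
  · intro z hz g1 g2
    have := sw_o (p := (m : ℤ) - 1) (b := a0 m a1 a2) (z := z) g1
      (by rw [ep]; intro h; unfold Inn at hz; omega) (by rw [b1]; exact g2)
      (by rw [b2]; intro h; rw [h] at hz; exact y1 hz)
    rwa [a0_inn hz] at this
  · intro w g1 g2
    have hw := oo_not m w
    have := sw_o (p := (m : ℤ) - 1) (b := a0 m a1 a2) (z := oo m w)
      (fun h => hw (by rw [h]; exact e2))
      (by rw [ep]; intro h; exact g1 (oo_inj m (by rw [h, ← e1])))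
      (by rw [b1]; intro h; rw [h] at hw; exact hw x1)
      (by rw [b2]; intro h; exact g2 (oo_inj m h))
    rwa [a0_oo] at this
  · refine sw_nci H ?_ ?_ hne
    · push_cast
      omega
    · push_cast
      omega

theorem jn_sz (hm : 0 < m) (hn : 0 < n) (h1 : SZ m a1) (h2 : SZ n a2) :
    SZ (m + n) (jn m a1 a2) := by
  obtain ⟨v1, v2, v3, v4, v5, v6, v7⟩ := jn_vals hm hn h1.nci h2.nci
  obtain ⟨e1, e2⟩ := m_eq hm
  refine ⟨v7, ?_⟩
  have sym : ∀ s t, Conn (jn m a1 a2) (fun z => -1 - z) s t →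
      Conn (jn m a1 a2) (fun z => -1 - z) t s := by
    intro s t h
    induction h with
    | refl => exact Relation.ReflTransGen.refl
    | tail _ hst ih =>
      refine Relation.ReflTransGen.head ?_ ih
      rcases hst with rfl | rfl
      · exact Or.inl (v7.inv _).symm
      · exact Or.inr (by ring)
  have Q1 := reach h1.nci h1.con ((m : ℤ) - 1) e2.1 e2.2
    (fun z => Conn (jn m a1 a2) (fun z => -1 - z) ((m : ℤ) - 1) z) Relation.ReflTransGen.refl
    (fun z _ _ h => Relation.ReflTransGen.tail h (Or.inr rfl))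
    (fun z z1 z2 z3 z4 h => Relation.ReflTransGen.tail h (Or.inl (v5 z ⟨z1, z2⟩ z3 z4).symm))
  have Q2 := reach h2.nci h2.con 0 (by omega) (by omega)
    (fun w => Conn (jn m a1 a2) (fun z => -1 - z) (m : ℤ) (oo m w))
    (by
      show Conn (jn m a1 a2) (fun z => -1 - z) (m : ℤ) (oo m 0)
      rw [← e1]
      exact Relation.ReflTransGen.refl)
    (fun w _ _ h => Relation.ReflTransGen.tail h (Or.inr (oo_neg m w)))
    (fun w _ _ w3 w4 h => Relation.ReflTransGen.tail h (Or.inl (v6 w w3 w4).symm))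
  have all : ∀ z, -((m + n : ℕ) : ℤ) ≤ z → z < ((m + n : ℕ) : ℤ) →
      Conn (jn m a1 a2) (fun z => -1 - z) ((m : ℤ) - 1) z := by
    intro z z1 z2
    rcases inn_or m z with hz | ⟨w, rfl⟩
    · exact Q1 z hz.1 hz.2
    · have st : Conn (jn m a1 a2) (fun z => -1 - z) ((m : ℤ) - 1) m :=
        Relation.ReflTransGen.single (Or.inl v1.symm)
      refine st.trans (Q2 w ?_ ?_)
      · unfold oo at z1
        push_cast at z1
        split_ifs at z1 <;> omega
      · unfold oo at z2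
        push_cast at z2
        split_ifs at z2 <;> omega
  intro s t s1 s2 t1 t2
  exact (sym _ _ (all s s1 s2)).trans (all t t1 t2)

theorem jn_hf (hm : 0 < m) (hn : 0 < n) (h1 : NCI (-(m : ℤ)) m a1) (h2 : NCI (-(n : ℤ)) n a2)
    (f1 : HF a1) (f2 : HF a2) : HF (jn m a1 a2) := by
  obtain ⟨v1, v2, v3, v4, v5, v6, -⟩ := jn_vals hm hn h1 h2
  obtain ⟨e1, e2⟩ := m_eq hm
  have x0 : 0 ≤ a1 ((m : ℤ) - 1) := (f1 _).1 (by omega)
  have y0 : 0 ≤ a2 0 := (f2 0).1 le_rfl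
  have y1 : 0 ≤ oo m (a2 0) := by
    unfold oo
    rw [if_pos y0]
    omega
  have oo0 : ∀ w, 0 ≤ oo m w ↔ 0 ≤ w := by
    intro w
    unfold oo
    split_ifs <;> omega
  intro z
  rcases inn_or m z with hz | ⟨w, rfl⟩
  · by_cases g1 : z = m - 1
    · rw [g1, v1]; omega
    by_cases g2 : z = a1 (m - 1)
    · rw [g2, v3]
      exact ⟨fun _ => y1, fun _ => x0⟩
    rw [v5 z hz g1 g2]
    exact f1 z
  · by_cases g1 : w = 0
    · rw [g1, ← e1, v2]; omega
    by_cases g2 : w = a2 0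
    · rw [g2, v4]
      exact ⟨fun _ => x0, fun _ => y1⟩
    rw [v6 w g1 g2, oo0, oo0]
    exact f2 w

theorem jn_inj (hm : 0 < m) (hn : 0 < n) {b1 b2 : ℤ → ℤ} (h1 : NCI (-(m : ℤ)) m a1)
    (h2 : NCI (-(n : ℤ)) n a2) (k1 : NCI (-(m : ℤ)) m b1) (k2 : NCI (-(n : ℤ)) n b2)
    (h : jn m a1 a2 = jn m b1 b2) : a1 = b1 ∧ a2 = b2 := by
  obtain ⟨-, -, v3, v4, v5, v6, -⟩ := jn_vals hm hn h1 h2
  obtain ⟨-, -, u3, u4, u5, u6, -⟩ := jn_vals hm hn k1 k2
  obtain ⟨e1, e2⟩ := m_eq hm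
  have x1 : Inn m (a1 (m - 1)) := maps h1 e2.1 e2.2
  have x2 : a1 ((m : ℤ) - 1) ≠ m - 1 := h1.ne _ e2.1 e2.2
  have hx : a1 (m - 1) = b1 (m - 1) := by
    by_contra hne
    have g1 := u5 (a1 (m - 1)) x1 x2 hne
    rw [← h, v3] at g1
    have g2 : Inn m (b1 (a1 (m - 1))) := maps k1 x1.1 x1.2
    rw [← g1] at g2
    exact oo_not m _ g2
  have hy : a2 0 = b2 0 := by
    apply oo_inj m
    rw [← v3, ← u3, h, hx]
  constructor
  · funext z
    rcases inn_or m z with hz | ⟨w, rfl⟩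
    · by_cases g1 : z = m - 1
      · rw [g1]; exact hx
      by_cases g2 : z = a1 (m - 1)
      · rw [g2, h1.inv, hx, k1.inv]
      rw [← v5 z hz g1 g2, ← u5 z hz g1 (by rw [← hx]; exact g2), h]
    · have hw := oo_not m w
      unfold Inn at hw
      rw [h1.out _ (by omega), k1.out _ (by omega)]
  · funext w
    by_cases g1 : w = 0
    · rw [g1]; exact hy
    by_cases g2 : w = a2 0
    · rw [g2, h2.inv, hy, k2.inv]
    apply oo_inj m
    rw [← v6 w g1 g2, ← u6 w g1 (by rw [← hy]; exact g2), h]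

end main

theorem cT_zero (h : Bool) : cT h 0 ≤ 1 := by
  have : Subsingleton (T h 0) := by
    refine ⟨fun a b => Subtype.ext ?_⟩
    funext z
    rw [a.2.1.nci.out z (by push_cast; omega), b.2.1.nci.out z (by push_cast; omega)]
  unfold cT
  exact Finite.card_le_one_iff_subsingleton.2 this

/-- (SUP) -/
theorem goalSUP (hFIN : FIN) : SUP := by
  intro h m n
  rcases Nat.eq_zero_or_pos m with rfl | hm
  · rw [Nat.zero_add]
    calc cT h 0 * cT h n ≤ 1 * cT h n := Nat.mul_le_mul_right _ (cT_zero h)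
      _ = cT h n := Nat.one_mul _
  rcases Nat.eq_zero_or_pos n with rfl | hn
  · rw [Nat.add_zero]
    calc cT h m * cT h 0 ≤ cT h m * 1 := Nat.mul_le_mul_left _ (cT_zero h)
      _ = cT h m := Nat.mul_one _
  have := (hFIN h (m + n)).1
  unfold cT
  rw [← Nat.card_prod]
  refine Nat.card_le_card_of_injective (fun p : T h m × T h n =>
    (⟨jn m p.1.1 p.2.1, jn_sz hm hn p.1.2.1 p.2.2.1, fun e =>
      jn_hf hm hn p.1.2.1.nci p.2.2.1.nci (p.1.2.2 e) (p.2.2.2 e)⟩ : T h (m + n))) ?_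
  rintro ⟨a1, a2⟩ ⟨b1, b2⟩ hab
  have h1 := congrArg Subtype.val hab
  obtain ⟨h2, h3⟩ := jn_inj hm hn a1.2.1.nci a2.2.1.nci b1.2.1.nci b2.2.1.nci h1
  exact Prod.ext (Subtype.ext h2) (Subtype.ext h3)

end Pool.Agent.Helper88.MB
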